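import Pool.Agent.X160.Gs.Count

/-!
# Generating sets of the integers with a prescribed sphere grow linearly

For every `r ≥ 2` and every nonempty finite set `W` of positive integers there is a set `A` of
positive integers generating `ℤ`, whose sphere of radius `r` is `W ∪ (-W)`, and which has positive
lower density.  Hence the extremal exponent is `1`.

Construction, `k = r - 2`: take distinct primes `p_1, …, p_k > max W` with product `D`, a large
base `B`, and the lacunary set `O` of the integers `D B ^ (e + 1) + (D / p_i) c`, `1 ≤ c < p_i`,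
where the exponent `e` determines `(i, c)` and every pair `(i, c)` has infinitely many exponents.
Let `M` be the set of the positive multiples `m` of `D` such that neither `m` nor `-m` is of the
form `w - (± s_1 ± ⋯ ± s_k)` with `w ∈ W` and `s_i ∈ O` belonging to `p_i`, and `A = M ∪ O`.
A representation of `w ∈ W` must use an element of `O` for each `p_i`; with at most one further
element it is impossible by the choice of `M` and by lacunarity, with two further elements of
`M` it exists. An integer outside `W ∪ (-W)` divisible by some `p_i` saves one element of `O`;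
if it is divisible by no `p_i`, then one element of `M` suffices after subtracting `k` very large
elements of `O`.
-/

set_option autoImplicit false

namespace Pool.Agent.Results.MP_7aef23_nt.LinearGrowth

/-- `x` is a sum of `n` elements of `A ∪ (-A)`, with repetitions allowed. -/
def IsSum (A : Set ℕ) (n : ℕ) (x : ℤ) : Prop :=
  ∃ f : Fin n → ℤ, (∀ i, (f i).natAbs ∈ A) ∧ ∑ i, f i = x

/-- The word length. -/
noncomputable def len (A : Set ℕ) (x : ℤ) : ℕ∞ := sInf {k : ℕ∞ | ∃ n : ℕ, k = n ∧ IsSum A n x}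

/-- The sphere of radius `r`. -/
def Sphere (A : Set ℕ) (r : ℕ) : Set ℤ := {x | len A x = r}

/-- The family of sets of positive integers generating `ℤ` with the prescribed sphere. -/
def Family (r : ℕ) (W : Finset ℕ) : Set (Set ℕ) :=
  {A | 0 ∉ A ∧ (∀ x, len A x < ⊤) ∧ Sphere A r = {x | x.natAbs ∈ W}}

/-- The counting function. -/
noncomputable def count (A : Set ℕ) (t : ℝ) : ℕ := Set.ncard {a | a ∈ A ∧ (a : ℝ) ≤ t}

/-- The relation `A(t) ≫ t ^ θ`. -/
def Grows (A : Set ℕ) (θ : ℝ) : Prop :=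
  ∃ c : ℝ, 0 < c ∧ ∃ t0 : ℝ, ∀ t : ℝ, t0 ≤ t → c * t ^ θ ≤ count A t

/-- The extremal exponent (with `sSup ∅ = 0`). -/
noncomputable def theta (r : ℕ) (W : Finset ℕ) : ℝ :=
  sSup {θ : ℝ | 0 < θ ∧ ∃ A ∈ Family r W, Grows A θ}

theorem len_le {A : Set ℕ} {n : ℕ} {x : ℤ} (h : IsSum A n x) : len A x ≤ n :=
  sInf_le ⟨n, rfl, h⟩

theorem len_attained {A : Set ℕ} {n : ℕ} {x : ℤ} (h : len A x = n) : IsSum A n x := by
  have hne : {k : ℕ∞ | ∃ n : ℕ, k = n ∧ IsSum A n x}.Nonempty := by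
    by_contra hcon
    rw [Set.not_nonempty_iff_eq_empty] at hcon
    unfold len at h
    rw [hcon, sInf_empty] at h
    exact ENat.top_ne_natCast n h
  obtain ⟨m, hm, hs⟩ := csInf_mem hne
  have : (m : ℕ∞) = n := by rw [← hm]; exact h
  rwa [Nat.cast_inj.1 this] at hs

theorem mem_sphere_iff (A : Set ℕ) (r : ℕ) (x : ℤ) :
    x ∈ Sphere A r ↔ IsSum A r x ∧ ∀ j < r, ¬ IsSum A j x := by
  constructor
  · intro h
    refine ⟨len_attained h, fun j hj hs => ?_⟩
    have h1 := len_le hs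
    have h2 : len A x = r := h
    rw [h2, Nat.cast_le] at h1
    omega
  · rintro ⟨h1, h2⟩
    refine le_antisymm (len_le h1) (le_sInf ?_)
    rintro _ ⟨n, rfl, hn⟩
    rw [Nat.cast_le]
    by_contra hcon
    exact h2 n (not_le.1 hcon) hn

theorem count_le {A : Set ℕ} (hA : 0 ∉ A) (t : ℝ) (ht : 0 ≤ t) : (count A t : ℝ) ≤ t :=
  Pool.Agent.X160.Gs.cnt_le A hA t ht

theorem exists_linear (r : ℕ) (W : Finset ℕ) (hr : 2 ≤ r) (hW : ∀ w ∈ W, 0 < w) :
    ∃ A ∈ Family r W, ∃ c : ℝ, 0 < c ∧ ∃ t0 : ℝ, ∀ t : ℝ, t0 ≤ t → c * t ≤ count A t := by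
  obtain ⟨A, h0, hgen, hiff, hc⟩ := Pool.Agent.X160.Gs.main (r - 2) W hW
  rw [show r - 2 + 2 = r by omega] at hiff
  refine ⟨A, ⟨h0, fun x => ?_, ?_⟩, hc⟩
  · obtain ⟨j, _, hj⟩ := hgen x
    exact lt_of_le_of_lt (len_le hj) (ENat.natCast_lt_top j)
  · ext x
    rw [mem_sphere_iff]
    exact (hiff x).symm

theorem not_grows {A : Set ℕ} (hA : 0 ∉ A) {θ : ℝ} (hθ : 1 < θ) : ¬ Grows A θ := by
  rintro ⟨c, hc, t0, h⟩
  have h1 : Filter.Tendsto (fun t : ℝ => t ^ (θ - 1)) Filter.atTop Filter.atTop :=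
    tendsto_rpow_atTop (by linarith)
  obtain ⟨t, ht1, ht2⟩ := ((h1.eventually_gt_atTop (1 / c)).and
    (Filter.eventually_ge_atTop (max t0 1))).exists
  have ht3 : t0 ≤ t := (le_max_left _ _).trans ht2
  have ht4 : 1 ≤ t := (le_max_right _ _).trans ht2
  have ht5 : 0 < t := by linarith
  have h2 := (h t ht3).trans (count_le hA t ht5.le)
  have h3 : t ^ θ = t ^ (θ - 1) * t := by
    rw [← Real.rpow_add_one ht5.ne']; congr 1; ring
  rw [h3] at h2
  have h4 : 1 < c * t ^ (θ - 1) := by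
    rw [div_lt_iff₀ hc] at ht1; linarith
  nlinarith

/-- For every `r ≥ 2` and every nonempty finite set `W` of positive integers, some member of the
family satisfies `A(t) ≥ c t` for all large `t`, every member satisfies `A(t) ≤ t`, and the
extremal exponent is `1`. -/
theorem result (r : ℕ) (W : Finset ℕ) (hr : 2 ≤ r) (_hW0 : W.Nonempty) (hW : ∀ w ∈ W, 0 < w) :
    (∃ A ∈ Family r W, ∃ c : ℝ, 0 < c ∧ ∃ t0 : ℝ, ∀ t : ℝ, t0 ≤ t → c * t ≤ count A t) ∧
    (∀ A ∈ Family r W, ∀ t : ℝ, 0 ≤ t → (count A t : ℝ) ≤ t) ∧ theta r W = 1 := by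
  refine ⟨exists_linear r W hr hW, fun A hA t ht => count_le hA.1 t ht, ?_⟩
  have hmem : (1 : ℝ) ∈ {θ : ℝ | 0 < θ ∧ ∃ A ∈ Family r W, Grows A θ} := by
    obtain ⟨A, hA, c, hc, t0, h⟩ := exists_linear r W hr hW
    refine ⟨one_pos, A, hA, c, hc, t0, fun t ht => ?_⟩
    rw [Real.rpow_one]
    exact h t ht
  have hub : ∀ θ ∈ {θ : ℝ | 0 < θ ∧ ∃ A ∈ Family r W, Grows A θ}, θ ≤ 1 := by
    rintro θ ⟨_, A, hA, hg⟩
    by_contra hcon
    exact not_grows hA.1 (not_le.1 hcon) hg
  exact le_antisymm (csSup_le ⟨1, hmem⟩ hub) (le_csSup ⟨1, hub⟩ hmem)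

end Pool.Agent.Results.MP_7aef23_nt.LinearGrowth
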